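import Pool.Agent.H15.DimE

/-!
# MP_d9d12d_lc: under CH, for every `s ∈ [0,1]` there is a set of Hausdorff dimension `s` in Cantor
space all of whose Borel images have dimension at most `s`
-/

set_option autoImplicit false

namespace Pool.Agent.Results.MP_d9d12d_lc.BorelImages

open Pool.Agent.H15.Dim

/-- Assume the continuum hypothesis and let `s ∈ [0,1]`. There is `E ⊆ 2^ω` with
`dim_H(E) = s` such that `dim_H(f(E)) ≤ s` for every Borel function `f : 2^ω → 2^ω`. -/
theorem result (CH : Cardinal.continuum.{0} = Cardinal.aleph.{0} 1) (s : ℝ) (hs0 : 0 ≤ s)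
    (hs1 : s ≤ 1) :
    ∃ E : Set Cantor, dimH E = ENNReal.ofReal s ∧ ∀ f : Cantor → Cantor,
      (∀ U : Set Cantor, IsOpen U → @MeasurableSet Cantor (borel Cantor) (f ⁻¹' U)) →
        dimH (f '' E) ≤ ENNReal.ofReal s :=
  final CH s hs0 hs1

end Pool.Agent.Results.MP_d9d12d_lc.BorelImages
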